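import Pool.Agent.H608R4.KM.Stm

/-! Job 5167 (KM-FC): few exceptional pairs. -/

set_option autoImplicit false

namespace Pool.Agent.TH554.KM

open Finset Pool.Agent.H608R4.KM

theorem ind_t {p : Prop} (h : p) : ind p = 1 := by
  unfold ind; simp [h]

theorem ind_f {p : Prop} (h : ¬ p) : ind p = 0 := by
  unfold ind; simp [h]

theorem z4 : ∀ p q : ZMod 4, (q = p + 1 → ¬ p = q + 1 ∧ ¬ q = p + 2) ∧
    (p = q + 1 → ¬ q = p + 1 ∧ ¬ q = p + 2) ∧ (q = p + 2 → ¬ q = p + 1 ∧ ¬ p = q + 1) := by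
  decide

theorem sqb (c s c' s' : ℝ) (h : c ^ 2 + s ^ 2 = 1) (h' : c' ^ 2 + s' ^ 2 = 1) :
    (s * c' - c * s') ^ 2 ≤ 2 * (s ^ 2 + s' ^ 2) := by
  have e1 : s ^ 2 * c' ^ 2 ≤ s ^ 2 := by nlinarith [sq_nonneg s, sq_nonneg s', mul_nonneg (sq_nonneg s) (sq_nonneg s')]
  have e2 : c ^ 2 * s' ^ 2 ≤ s' ^ 2 := by nlinarith [sq_nonneg s, sq_nonneg s', mul_nonneg (sq_nonneg s) (sq_nonneg s')]
  nlinarith [sq_nonneg (s * c' + c * s')]

theorem idb (c s c' s' : ℝ) (h : c ^ 2 + s ^ 2 = 1) (h' : c' ^ 2 + s' ^ 2 = 1) :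
    (s * c' - c * s') ^ 2 + (c * c' + s * s') ^ 2 = 1 := by
  have : (s * c' - c * s') ^ 2 + (c * c' + s * s') ^ 2 = (c ^ 2 + s ^ 2) * (c' ^ 2 + s' ^ 2) := by ring
  rw [this, h, h']; norm_num

theorem Ksq (t : ℝ) (h : t ^ 2 ≤ 1) : K t ^ 2 ≤ t ^ 2 := by
  unfold K
  have h1 : -1 ≤ t := by nlinarith
  have h2 : t ≤ 1 := by nlinarith
  have h3 : (t - 1) ^ 2 ≤ 4 := by nlinarith
  have : ((t ^ 2 - t) / 2) ^ 2 = t ^ 2 * (t - 1) ^ 2 / 4 := by ring
  rw [this]
  nlinarith [mul_le_mul_of_nonneg_left h3 (sq_nonneg t)]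

theorem Kop (C : ℝ) (h0 : 0 ≤ C) (h1 : C ≤ 1) : 1 ≤ 2 * K (-C) ^ 2 + 9 / 2 * (1 - C ^ 2) := by
  unfold K
  have e : ((-C) ^ 2 - -C) / 2 = 1 - (1 - C) * (2 + C) / 2 := by ring
  rw [e]
  set w := (1 - C) * (2 + C) / 2 with hw
  have hw2 : w ^ 2 ≤ 9 / 4 * (1 - C ^ 2) := by
    have a1 : (2 + C) ^ 2 ≤ 9 := by nlinarith
    have a2 : (1 - C) ^ 2 ≤ 1 - C ^ 2 := by nlinarith
    have a3 : w ^ 2 = (1 - C) ^ 2 * (2 + C) ^ 2 / 4 := by rw [hw]; ring
    have a4 : (1 - C) ^ 2 * (2 + C) ^ 2 ≤ (1 - C ^ 2) * 9 :=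
      mul_le_mul a2 a1 (sq_nonneg _) (by nlinarith)
    rw [a3]; linarith
  nlinarith [sq_nonneg (1 - 2 * w)]

theorem pt (B t S2 : ℝ) (hB : B = 1) (h : t ^ 2 ≤ 1) (hS : t ^ 2 ≤ S2) :
    1 ≤ 2 * (B - K t) ^ 2 + 2 * S2 := by
  have := Ksq t h
  subst hB
  nlinarith [sq_nonneg (1 - 2 * K t)]

theorem Fpt {n : ℕ} {a : Fin n → Fin n → ℝ} {x y : Fin n → ℝ} {k : Fin n → ZMod 4}
    {c s : Fin n → ℝ} (hDB : S_DB) (hCU : S_CU) (hG : Gr n a) (hC : Cl n x y k c s) (i j : Fin n) :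
    (F a k i j = 0 ∨ F a k i j = 1) ∧
    F a k i j ≤ 2 * (b a i j - K (u x y i j)) ^ 2 + 9 * (s i ^ 2 + s j ^ 2) := by
  obtain ⟨-, -, hb, hab, -⟩ := hDB n a hG
  obtain ⟨-, q1, q2, q3⟩ := hCU n x y k c s hC i j
  have hz := z4 (k i) (k j)
  have hS := sqb (c i) (s i) (c j) (s j) (hC.cs i) (hC.cs j)
  have hI := idb (c i) (s i) (c j) (s j) (hC.cs i) (hC.cs j)
  have hpos : 0 ≤ 2 * (b a i j - K (u x y i j)) ^ 2 + 9 * (s i ^ 2 + s j ^ 2) := by positivity
  have hu1 : (s i * c j - c i * s j) ^ 2 ≤ 1 := by nlinarith [sq_nonneg (c i * c j + s i * s j)]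
  by_cases h1 : k j = k i + 1
  · obtain ⟨n2, n3⟩ := hz.1 h1
    have eF : F a k i j = b a i j := by
      simp only [F, adj, opp]; rw [ind_t h1, ind_f n2, ind_f n3]; ring
    refine ⟨by rw [eF]; exact hb i j, ?_⟩
    rw [eF]
    rcases hb i j with h | h
    · rw [h] at hpos ⊢; exact hpos
    · have hu := (q1 h1).1
      have := pt (b a i j) (u x y i j) ((s i * c j - c i * s j) ^ 2) h (by rw [hu]; exact hu1)
        (by rw [hu])
      rw [h] at this ⊢
      nlinarith [sq_nonneg (s i), sq_nonneg (s j)]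
  · by_cases h2 : k i = k j + 1
    · obtain ⟨n2, n3⟩ := hz.2.1 h2
      have eF : F a k i j = b a i j := by
        simp only [F, adj, opp]; rw [ind_t h2, ind_f n2, ind_f n3]; ring
      refine ⟨by rw [eF]; exact hb i j, ?_⟩
      rw [eF]
      rcases hb i j with h | h
      · rw [h] at hpos ⊢; exact hpos
      · have hu := (q2 h2).1
        have e2 : (u x y i j) ^ 2 = (s i * c j - c i * s j) ^ 2 := by rw [hu]; ring
        have := pt (b a i j) (u x y i j) ((s i * c j - c i * s j) ^ 2) h (by rw [e2]; exact hu1)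
          (by rw [e2])
        rw [h] at this ⊢
        nlinarith [sq_nonneg (s i), sq_nonneg (s j)]
    · by_cases h3 : k j = k i + 2
      · have eF : F a k i j = a i j := by
          simp only [F, adj, opp]; rw [ind_t h3, ind_f h1, ind_f h2]; ring
        refine ⟨by rw [eF]; exact hG.zo i j, ?_⟩
        rw [eF]
        rcases hG.zo i j with h | h
        · rw [h]; exact hpos
        · have hij : i ≠ j := by
            rintro rfl
            rw [hG.diag] at h; norm_num at h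
          have hb0 : b a i j = 0 := by have := hab i j hij; linarith
          have hu := (q3 h3).1
          have hC0 : 0 ≤ c i * c j + s i * s j := by
            have a1 : s i ^ 2 ≤ c i ^ 2 := by nlinarith [hC.cs i, hC.ch i]
            have a2 : s j ^ 2 ≤ c j ^ 2 := by nlinarith [hC.cs j, hC.ch j]
            have b1 : |s i| ≤ c i := abs_le_of_sq_le_sq a1 (hC.c0 i).le
            have b2 : |s j| ≤ c j := abs_le_of_sq_le_sq a2 (hC.c0 j).le
            have b3 : |s i * s j| ≤ c i * c j := by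
              rw [abs_mul]; exact mul_le_mul b1 b2 (abs_nonneg _) (hC.c0 i).le
            have := (abs_le.mp b3).1
            linarith
          have hC1 : c i * c j + s i * s j ≤ 1 := by nlinarith [sq_nonneg (s i * c j - c i * s j)]
          have hk := Kop _ hC0 hC1
          rw [h, hb0, hu]
          nlinarith [sq_nonneg (s i), sq_nonneg (s j)]
      · have eF : F a k i j = 0 := by
          simp only [F, adj, opp]; rw [ind_f h3, ind_f h1, ind_f h2]; ring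
        exact ⟨Or.inl eF, by rw [eF]; exact hpos⟩

/-- **FC** (job 5167): few exceptional pairs. -/
theorem t_FC (hDB : S_DB) (hCU : S_CU) : S_FC := by
  intro n a x y k c s hG hC hL hQ
  refine ⟨fun i j => (Fpt hDB hCU hG hC i j).1, ?_⟩
  have h1 : ∑ i, ∑ j, F a k i j ≤
      ∑ i : Fin n, ∑ j : Fin n, (2 * (b a i j - K (u x y i j)) ^ 2 + 9 * (s i ^ 2 + s j ^ 2)) :=
    Finset.sum_le_sum fun i _ => Finset.sum_le_sum fun j _ => (Fpt hDB hCU hG hC i j).2
  have h2 : ∑ i : Fin n, ∑ j : Fin n, (2 * (b a i j - K (u x y i j)) ^ 2 + 9 * (s i ^ 2 + s j ^ 2))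
      = 2 * Lam a x y + 18 * (n * Q s) := by
    unfold Lam Q
    simp only [Finset.sum_add_distrib, ← Finset.mul_sum, Finset.sum_const, Finset.card_univ,
      Fintype.card_fin, nsmul_eq_mul]
    ring
  rw [h2] at h1
  refine h1.trans ?_
  have hn : (0 : ℝ) ≤ n := Nat.cast_nonneg n
  have h3 : (n : ℝ) * Q s ≤ n * (25 * dl * n) := mul_le_mul_of_nonneg_left hQ hn
  unfold dl at hL h3
  nlinarith [sq_nonneg (n : ℝ)]

end Pool.Agent.TH554.KM
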